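import Mathlib
import Pool.Graph.R_seed8.H524R3.ExpDefs
import Pool.Graph.R_seed8.W719.AEC.Defs
import Pool.Agent.H391.AE.D
import Pool.Agent.H391.AE.All2

set_option autoImplicit false

open Filter H391.AE

namespace Pool.Agent.Results.MP_fcdc94_gt.EverySimpleGroup

/-- The asymptotic expansion conjecture fails for every simply connected compact simple Lie group G. Let G be
given by its root system R (an irreducible reduced crystallographic root system of rank n, long roots of square
length 2; δ regular, defining the positive roots) and let M_p be the closed oriented 3-manifold of the plumbing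
graph `multiEdge p`: two copies of F x S^1, F the torus with 2 p open discs removed, glued along all boundary
tori by exchanging the fibre and the boundary of the base, p ≥ 1. Then, with r = k + h^∨ and
E = p dim G + n (dim G = n + |R|), the level k invariant Z_k(M_p) has exactly the order r^E log r, and for every
choice of phases ω k of absolute value 1 (in particular in every 2-framing) the sequence ω k * Z_k(M_p) has no
asymptotic expansion ∑_j exp (2 π i r c_j) r^(d_j) b_j (1 + ∑_l a_{j,l} r^(-l/2)), r = k + h, with any finite
family of real phases c_j and real exponents d_j (h is arbitrary, for example h = h^∨). In particular the one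
manifold M_1 works for all groups G. -/
theorem result (n : ℕ) (R : Finset (V n)) (hR : Simple R) (δ : V n) (hδ : ∀ α ∈ R, (inner ℝ δ α : ℝ) ≠ 0)
    (p : ℕ) (hp : 1 ≤ p) :
    (∃ c C : ℝ, 0 < c ∧ ∀ᶠ r : ℕ in atTop,
      c * ((r : ℝ) ^ (p * (n + R.card) + n) * Real.log r) ≤ ‖Z R δ (multiEdge p) r‖ ∧
        ‖Z R δ (multiEdge p) r‖ ≤ C * ((r : ℝ) ^ (p * (n + R.card) + n) * Real.log r)) ∧
    ∀ ω : ℕ → ℂ, (∀ k, ‖ω k‖ = 1) → ∀ h : ℕ,
      ¬ H524R3.HasExpansion h (fun k => ω k * Z R δ (multiEdge p) (k + h)) :=
  H391.AE.main2 n R hR δ hδ p hp

end Pool.Agent.Results.MP_fcdc94_gt.EverySimpleGroup
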